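import Pool.Agent.W295.NL.Stm

set_option autoImplicit false

namespace Pool.Agent.W214.NL.TM

open Pool.Agent.W295.NL

/-- the cells used -/
def d (n i : ℕ) : ℕ := if i % 2 = 1 then i + n else i

theorem small (n : ℕ) (x : ℤ) (h : ((2 * n : ℕ) : ℤ) ∣ x) (h1 : -(4 * (n : ℤ)) < x)
    (h2 : x < 4 * (n : ℤ)) : x = 0 ∨ x = 2 * (n : ℤ) ∨ x = -(2 * (n : ℤ)) := by
  obtain ⟨k, hk⟩ := h
  push_cast at hk
  have hn : (0 : ℤ) < n := by linarith
  have hk1 : k < 2 := by
    by_contra hc
    have : 2 ≤ k := by omega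
    nlinarith
  have hk2 : -2 < k := by
    by_contra hc
    have : k ≤ -2 := by omega
    nlinarith
  have hk3 : k = 0 ∨ k = 1 ∨ k = -1 := by omega
  rcases hk3 with h | h | h
  · left
    rw [hk, h, mul_zero]
  · right
    left
    rw [hk, h, mul_one]
  · right
    right
    rw [hk, h]
    ring

theorem small' (n a b : ℕ) (h : a ≡ b [MOD 2 * n]) (ha : a < 4 * n) (hb : b < 4 * n) :
    a = b ∨ b = a + 2 * n ∨ a = b + 2 * n := by
  have h1 := (Nat.modEq_iff_dvd).1 h
  have h2 := small n _ h1 (by omega) (by omega)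
  omega

theorem key (n i i' : ℕ) (hn : Even n) (hi : i < n - 1) (hi' : i' < n - 1)
    (h : d n i' ≡ d n i [MOD 2 * n] ∨ d n i' ≡ d n i + 1 [MOD 2 * n] ∨
      d n i' + 1 ≡ d n i [MOD 2 * n] ∨ d n i' ≡ d n i + n [MOD 2 * n]) : i = i' := by
  obtain ⟨m, hm⟩ := hn
  have hd : d n i < 2 * n := by
    unfold d
    split_ifs <;> omega
  have hd' : d n i' < 2 * n := by
    unfold d
    split_ifs <;> omega
  have e1 : (i % 2 = 1 ∧ d n i = i + n) ∨ (i % 2 = 0 ∧ d n i = i) := by
    unfold d
    split_ifs <;> omega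
  have e2 : (i' % 2 = 1 ∧ d n i' = i' + n) ∨ (i' % 2 = 0 ∧ d n i' = i') := by
    unfold d
    split_ifs <;> omega
  rcases h with h | h | h | h
  · have := small' n _ _ h (by omega) (by omega)
    omega
  · have := small' n _ _ h (by omega) (by omega)
    omega
  · have := small' n _ _ h (by omega) (by omega)
    omega
  · have := small' n _ _ h (by omega) (by omega)
    omega

theorem main : Pool.Agent.W295.NL.S_TM := by
  intro Q L n hMob
  obtain ⟨hn, hpos, X, κ, hC, hκ, hX⟩ := hMob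
  have hinj : ∀ (a : Fin 3) (i i' : Fin (n - 1)), X a (d n i) = X a (d n i') → i = i' := by
    intro a i i' he
    apply Fin.ext
    apply key n i i' hn i.isLt i'.isLt
    rcases hX a _ _ he with h | h | h | h
    · exact Or.inl h
    · exact Or.inr (Or.inl h.2)
    · exact Or.inr (Or.inr (Or.inl h.2))
    · exact Or.inr (Or.inr (Or.inr h.2.2))
  refine ⟨fun i => X 0 (d n i), fun i => X 1 (d n i), ?_, ?_, ?_⟩
  · intro i i' he
    exact hinj 0 i i' he
  · intro i i' he
    exact hinj 1 i i' he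
  · intro i i' he
    apply hinj 2 i i'
    rw [hC.sym, hC.sym]
    exact he

end Pool.Agent.W214.NL.TM
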